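import Mathlib

open Filter Topology
open scoped InnerProductSpace

namespace Pool.Agent.Results.MP_20dafb_an.Root

section defs
variable {H : Type*} [NormedAddCommGroup H] [InnerProductSpace ℂ H] [CompleteSpace H]

/-- The operator matrix with `(i, j)` entry `[T_j^*, T_i]` is positive on `H^d`. -/
def JointlyHyponormal {d : ℕ} (T : Fin d → H →L[ℂ] H) : Prop :=
  ∀ x : Fin d → H, 0 ≤ (∑ i, ∑ j, ⟪x i, (star (T j) * T i - T i * star (T j)) (x j)⟫_ℂ).re

def SphericallyQuasinormal {κ : Type*} [Fintype κ] (S : κ → H →L[ℂ] H) : Prop :=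
  ∀ i, Commute (S i) (∑ j, star (S j) * S j)

/-- The tuple `T^n` of all words of length `n`. -/
noncomputable def tuplePow {d : ℕ} (T : Fin d → H →L[ℂ] H) (n : ℕ) (w : Fin n → Fin d) :
    H →L[ℂ] H := (List.ofFn fun k => T (w k)).prod

end defs

section alg
variable {A : Type*} [CStarAlgebra A] [PartialOrder A] [StarOrderedRing A]

lemma mid {C₀ C₂ G : A}
    (h : ∀ Z Y : A, star Z * star G * Y + star Y * G * Z ≤ star Z * C₀ * Z + star Y * C₂ * Y) :
    2 * ‖G‖ ≤ ‖C₀‖ + ‖C₂‖ := by
  rcases (norm_nonneg G).eq_or_lt with h0 | h0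
  · linarith [norm_nonneg C₀, norm_nonneg C₂]
  have h1 := h (‖G‖ • 1) G
  simp only [star_smul, star_trivial, star_one, smul_mul_assoc, one_mul, mul_smul_comm, mul_one,
    ← add_smul, smul_smul] at h1
  have h2 := CStarAlgebra.norm_le_norm_of_nonneg_of_le
    (smul_nonneg (by positivity) (star_mul_self_nonneg G)) h1
  have h3 : ‖star G * C₂ * G‖ ≤ ‖G‖ * ‖C₂‖ * ‖G‖ :=
    (norm_mul_le _ _).trans (by grw [norm_mul_le, norm_star])
  have h4 := norm_add_le ((‖G‖ * ‖G‖) • C₀) (star G * C₂ * G)
  rw [norm_smul, CStarRing.norm_star_mul_self, Real.norm_of_nonneg (by positivity)] at h2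
  rw [norm_smul, Real.norm_of_nonneg (by positivity)] at h4
  have : ‖G‖ * ‖G‖ * (2 * ‖G‖) ≤ ‖G‖ * ‖G‖ * (‖C₀‖ + ‖C₂‖) := by linarith
  exact le_of_mul_le_mul_left this (by positivity)

omit [PartialOrder A] [StarOrderedRing A] in
lemma conj_norm {G : A} (u : Aˣ) (h : IsSelfAdjoint (u * G * u⁻¹ : A)) :
    ‖(u * G * u⁻¹ : A)‖ ≤ ‖G‖ := by
  nontriviality A
  have h1 := h.spectralRadius_eq_nnnorm
  rw [spectralRadius, spectrum.units_conjugate, ← spectralRadius] at h1
  exact_mod_cast h1 ▸ spectrum.spectralRadius_le_nnnorm (𝕜 := ℂ) G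

lemma seq_le {c : ℕ → ℝ} {n : ℕ} (hn : 1 ≤ n) (h : ∀ m, 2 * c (m + 1) ≤ c m + c (m + 2))
    (h1 : ∀ k, c (n * k) ≤ 1) (m : ℕ) : c m ≤ 1 := by
  have ha : Antitone c := antitone_nat_of_succ_le fun j => by
    by_contra hj
    push Not at hj
    have h2 : ∀ p, c j + p * (c (j + 1) - c j) ≤ c (j + p) ∧
        c (j + 1) - c j ≤ c (j + p + 1) - c (j + p) := by
      intro p
      induction p with
      | zero => simp
      | succ p ih =>
        have := h (j + p)
        push_cast
        simp only [← add_assoc]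
        exact ⟨by linarith [ih.1, ih.2], by linarith [ih.2]⟩
    obtain ⟨k, hk⟩ := exists_nat_gt ((1 - c j) / (c (j + 1) - c j))
    rw [div_lt_iff₀ (by linarith)] at hk
    obtain ⟨p, hp⟩ := Nat.exists_eq_add_of_le (show j + k ≤ n * (j + k) by nlinarith)
    have h3 := (h2 (k + p)).1
    have h4 := h1 (j + k)
    rw [hp, add_assoc] at h4
    push_cast at h3
    nlinarith [mul_nonneg (Nat.cast_nonneg (α := ℝ) p) (sub_pos.2 hj).le]
  simpa using (ha (Nat.zero_le m)).trans (h1 0)

lemma upper {a : ℕ → A} {W : A} {n : ℕ} (hn : 1 ≤ n) (hW : 0 ≤ W) (hs : ∀ m, star (a m) = a m)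
    (hb : ∀ m (X Y : A), 0 ≤ star X * a m * X + star X * a (m + 1) * Y + star Y * a (m + 1) * X +
      star Y * a (m + 2) * Y) (hk : ∀ k, a (n * k) = (W ^ 2) ^ (n * k)) (m : ℕ) :
    a m ≤ (W ^ 2) ^ m := by
  nontriviality A
  have key : ∀ ε : ℝ, 0 < ε → a m ≤ ((W + algebraMap ℝ A ε) ^ 2) ^ m := by
    intro ε hε
    have h0 : 0 ≤ algebraMap ℝ A ε := by
      rw [Algebra.algebraMap_eq_smul_one]; exact smul_nonneg hε.le zero_le_one
    obtain ⟨u, hu⟩ := CStarAlgebra.isUnit_of_le (algebraMap ℝ A ε) (le_add_of_nonneg_left hW)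
      ⟨h0, (IsUnit.mk0 ε hε.ne').map (algebraMap ℝ A)⟩
    have su : star (u : A) = u := by rw [hu]; exact (add_nonneg hW h0).isSelfAdjoint
    set V : A := ↑u⁻¹ with hV
    have uV : u * V = 1 := u.mul_inv
    have Vu : V * u = 1 := u.inv_mul
    have sV : star V = V := by
      rw [← mul_one (star V), ← uV, ← mul_assoc, ← su, ← star_mul, uV, star_one, one_mul]
    have cu : Commute W u := by
      rw [hu]; exact (Commute.refl W).add_right (Algebra.commute_algebraMap_right ε W)
    have cV : Commute W V := cu.units_inv_right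
    have sa : ∀ j, IsSelfAdjoint (V ^ j * a j * V ^ j) := fun j => by
      simp [IsSelfAdjoint, sV, hs, mul_assoc]
    have hWV : ‖W * V‖ ≤ 1 := by
      have e1 : W * W ≤ u * u := by
        have : (u : A) * u = W * W + ((2 * ε) • W + (ε * ε) • 1) := by
          rw [hu, Algebra.algebraMap_eq_smul_one]
          simp only [add_mul, mul_add, smul_mul_assoc, mul_smul_comm, one_mul, mul_one, smul_smul,
            two_mul, add_smul, smul_add]
          abel
        rw [this]
        exact le_add_of_nonneg_right (add_nonneg (smul_nonneg (by positivity) hW)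
          (smul_nonneg (by positivity) zero_le_one))
      have e2 := star_left_conjugate_le_conjugate e1 V
      rw [sV, ← mul_assoc, ← mul_assoc, Vu, one_mul, uV] at e2
      have e3 : star (W * V) * (W * V) ≤ 1 := by
        rwa [star_mul, sV, hW.isSelfAdjoint.star_eq, ← mul_assoc]
      have := CStarAlgebra.norm_le_norm_of_nonneg_of_le (star_mul_self_nonneg _) e3
      rw [CStarRing.norm_star_mul_self, norm_one] at this
      nlinarith [norm_nonneg (W * V)]
    have hc := seq_le (c := fun j => ‖V ^ j * a j * V ^ j‖) hn (fun j => ?_) (fun k => ?_) m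
    · have e1 := (sa m).le_algebraMap_norm_self.trans
        (show _ ≤ (1 : A) by
          rw [Algebra.algebraMap_eq_smul_one]
          exact smul_le_of_le_one_left zero_le_one hc)
      have e2 := star_left_conjugate_le_conjugate e1 ((u : A) ^ m)
      have e3 : (u : A) ^ m * V ^ m = 1 := by
        rw [← (Commute.refl _).units_inv_right.mul_pow, uV, one_pow]
      have e4 : V ^ m * (u : A) ^ m = 1 := by
        rw [← (Commute.refl _).units_inv_left.mul_pow, Vu, one_pow]
      rw [star_pow, su, ← mul_assoc, ← mul_assoc, e3, one_mul, mul_assoc, e4, mul_one, mul_one,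
        ← pow_add, ← two_mul, pow_mul, hu] at e2
      exact e2
    · have e : V ^ (j + 1) * a (j + 1) * V ^ (j + 1) =
          u * (V ^ (j + 2) * a (j + 1) * V ^ j) * V := by
        rw [pow_succ' V (j + 1), pow_succ V j]
        simp only [← mul_assoc, uV, one_mul]
      have e1 := conj_norm u (e ▸ sa (j + 1))
      have e2 := mid (C₀ := V ^ j * a j * V ^ j) (C₂ := V ^ (j + 2) * a (j + 2) * V ^ (j + 2))
        (G := V ^ (j + 2) * a (j + 1) * V ^ j) fun Z Y => by
          have := hb j (V ^ j * Z) (-(V ^ (j + 2) * Y))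
          rw [← sub_nonneg]
          convert this using 1
          simp only [star_mul, star_pow, sV, hs, star_neg, mul_assoc, mul_neg, neg_mul, neg_neg]
          abel
      simp only [e]
      linarith
    · have e : V ^ (n * k) * a (n * k) * V ^ (n * k) = (W * V) ^ (2 * (n * k)) := by
        rw [hk, ← pow_mul, cV.mul_pow, ← (cV.pow_pow _ _).eq, mul_assoc, ← pow_add, ← two_mul]
      simp only [e]
      exact (norm_pow_le _ _).trans (pow_le_one₀ (norm_nonneg _) hWV)
  have ht : Tendsto (fun ε : ℝ => ((W + algebraMap ℝ A ε) ^ 2) ^ m) (𝓝[>] 0)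
      (𝓝 (((W + algebraMap ℝ A 0) ^ 2) ^ m)) :=
    tendsto_nhdsWithin_of_tendsto_nhds (Continuous.tendsto (by fun_prop) 0)
  simpa using ge_of_tendsto ht (eventually_nhdsWithin_of_forall key)

omit [PartialOrder A] [StarOrderedRing A] in
lemma ker_pow {R K : A} (hR : star R = R) : ∀ n, R ^ (n + 1) * K = 0 → R * K = 0
  | 0, h => by simpa using h
  | n + 1, h => ker_pow hR n ((CStarRing.star_mul_self_eq_zero_iff _).1 (by
      rw [star_mul, star_pow, hR, mul_assoc, ← mul_assoc (R ^ _), ← pow_add,
        show n + 1 + (n + 1) = n + (n + 1 + 1) by ring, pow_add, mul_assoc, h, mul_zero, mul_zero]))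

lemma sum_zero {ι : Type*} [Fintype ι] {Z : ι → A} (h : ∑ i, star (Z i) * Z i ≤ 0) (i : ι) :
    Z i = 0 :=
  (CStarRing.star_mul_self_eq_zero_iff _).1 (le_antisymm ((Finset.single_le_sum
    (fun j _ => star_mul_self_nonneg (Z j)) (Finset.mem_univ i)).trans h) (star_mul_self_nonneg _))

theorem core {ι : Type*} [Fintype ι] (T : ι → A) (Θ : A → A)
    (hΘ : ∀ X, Θ X = ∑ i, star (T i) * X * T i) (h1 : Θ 1 * Θ 1 ≤ Θ (Θ 1))
    (h2 : ∀ i, T i * star (T i) ≤ star (T i) * T i) {n : ℕ} (hn : 1 ≤ n) {Q : A} (hQ : 0 ≤ Q)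
    (hk : ∀ k, Θ^[n * k] 1 = Q ^ k) (i : ι) : Commute (T i) (Θ 1) := by
  obtain ⟨W, hW, hWQ⟩ : ∃ W : A, 0 ≤ W ∧ (W ^ 2) ^ n = Q := by
    refine ⟨cfc (fun t : ℝ => t ^ ((2 * n : ℕ) : ℝ)⁻¹) Q, cfc_nonneg fun t ht =>
      Real.rpow_nonneg (spectrum_nonneg_of_nonneg hQ ht) _, ?_⟩
    rw [← pow_mul, ← cfc_pow _ _ _ ((Real.continuous_rpow_const (by positivity)).continuousOn)]
    refine (cfc_congr fun t ht => ?_).trans (cfc_id' ℝ Q)
    exact Real.rpow_inv_natCast_pow (spectrum_nonneg_of_nonneg hQ ht) (by omega)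
  set a : ℕ → A := fun m => Θ^[m] 1 with ha
  have hsucc : ∀ m, a (m + 1) = ∑ i, star (T i) * a m * T i := fun m => by
    simp only [ha, Function.iterate_succ_apply', hΘ]
  have hs : ∀ m, star (a m) = a m := fun m => by
    induction m with
    | zero => simp [ha]
    | succ m ih => simp [hsucc, star_sum, ih, mul_assoc]
  have hb : ∀ m (X Y : A), 0 ≤ star X * a m * X + star X * a (m + 1) * Y +
      star Y * a (m + 1) * X + star Y * a (m + 2) * Y := by
    intro m
    induction m with
    | zero =>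
      intro X Y
      have e1 := star_left_conjugate_nonneg (sub_nonneg.2 h1) Y
      have e2 := add_nonneg (star_mul_self_nonneg (X + a 1 * Y)) e1
      convert e2 using 1
      rw [star_add, star_mul, hs]
      change star X * 1 * X + star X * Θ 1 * Y + star Y * Θ 1 * X + star Y * Θ (Θ 1) * Y =
        (star X + star Y * Θ 1) * (X + Θ 1 * Y) + _
      noncomm_ring
    | succ m ih =>
      intro X Y
      have := Finset.sum_nonneg fun i (_ : i ∈ Finset.univ) => ih (T i * X) (T i * Y)
      convert this using 1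
      rw [hsucc (m + 2), hsucc (m + 1)]
      nth_rw 1 [hsucc m]
      simp only [Finset.sum_add_distrib, Finset.mul_sum, Finset.sum_mul, star_mul, mul_assoc]
  have hup := upper hn hW hs hb fun k => by rw [pow_mul, hWQ]; exact hk k
  set R := W ^ 2 with hR
  have sR : star R = R := by rw [hR, star_pow, hW.isSelfAdjoint.star_eq]
  clear_value R
  obtain ⟨n, rfl⟩ : ∃ p, n = p + 1 := ⟨n - 1, by omega⟩
  have heq : ∀ p, a (n + p + 1) = R ^ (n + p + 1) := by
    intro p
    induction p with
    | zero => exact (show a (n + 1) = Q by simpa only [mul_one, pow_one] using hk 1).trans hWQ.symm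
    | succ p ih =>
      refine le_antisymm (hup _) ?_
      have e1 := hb (n + p) R (-1)
      have e2 := star_left_conjugate_le_conjugate (hup (n + p)) R
      rw [ih] at e1
      simp only [sR, star_neg, star_one, mul_neg, neg_mul, mul_one, one_mul, neg_neg, ← pow_succ,
        ← pow_succ'] at e1 e2
      have e3 := add_nonneg e1 (sub_nonneg.2 e2)
      rw [← sub_nonneg]
      convert e3 using 1
      simp only [← add_assoc]
      abel
  have hΘR : ∀ m, n + 1 ≤ m → ∑ i, star (T i) * R ^ m * T i = R ^ (m + 1) := by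
    intro m hm
    obtain ⟨p, rfl⟩ : ∃ p, m = n + p + 1 := ⟨m - (n + 1), by omega⟩
    rw [← heq, ← hsucc]
    exact heq (p + 1)
  have hP : Θ 1 = ∑ i, star (T i) * T i := by simp [hΘ]
  have hker : ∀ Z, R * Z = 0 → ∀ j, T j * Z = 0 := fun Z hZ => sum_zero (by
    have e := star_left_conjugate_le_conjugate (hup 1) Z
    rw [pow_one, mul_assoc _ R, hZ, mul_zero] at e
    convert e using 1
    change _ = star Z * Θ 1 * Z
    simp only [hP, Finset.mul_sum, Finset.sum_mul, star_mul, mul_assoc])
  have hK : ∀ j, R * T j - T j * R = 0 := by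
    intro j
    have e0 : R ^ (n + 1) * (R * T j - T j * R) = 0 := by
      refine sum_zero (Z := fun j => R ^ (n + 1) * (R * T j - T j * R)) (le_of_eq ?_) j
      have e : ∀ j, star (R ^ (n + 1) * (R * T j - T j * R)) * (R ^ (n + 1) * (R * T j - T j * R))
          = star (T j) * R ^ (2 * n + 4) * T j - star (T j) * R ^ (2 * n + 3) * T j * R
            - R * (star (T j) * R ^ (2 * n + 3) * T j)
            + R * (star (T j) * R ^ (2 * n + 2) * T j) * R := fun j => by
        have f1 : R ^ (2 * n + 4) = R * (R ^ (n + 1) * (R ^ (n + 1) * R)) := by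
          simp only [← pow_succ, ← pow_succ', ← pow_add]; congr 1; ring
        have f2 : R ^ (2 * n + 3) = R * (R ^ (n + 1) * R ^ (n + 1)) := by
          simp only [← pow_succ', ← pow_add]; congr 1; ring
        have f3 : R ^ (2 * n + 3) = R ^ (n + 1) * (R ^ (n + 1) * R) := by
          simp only [← pow_succ, ← pow_add]; congr 1; ring
        have f4 : R ^ (2 * n + 2) = R ^ (n + 1) * R ^ (n + 1) := by
          simp only [← pow_add]; congr 1; ring
        rw [f1, f4]
        nth_rw 1 [f2]
        rw [f3, star_mul, star_sub, star_mul, star_mul, star_pow, sR]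
        generalize R ^ (n + 1) = S
        noncomm_ring
      simp only [e, Finset.sum_add_distrib, Finset.sum_sub_distrib, ← Finset.mul_sum,
        ← Finset.sum_mul]
      rw [hΘR _ (by omega), hΘR _ (by omega), hΘR _ (by omega)]
      simp only [← pow_succ, ← pow_succ']
      abel
    have e1 := ker_pow sR n e0
    set K := R * T j - T j * R with hK
    have e2 : star (T j) * K = 0 := by
      refine (CStarRing.star_mul_self_eq_zero_iff _).1 (le_antisymm ?_ (star_mul_self_nonneg _))
      have := star_left_conjugate_le_conjugate (h2 j) K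
      simpa only [star_mul, star_star, mul_assoc, hker K e1 j, mul_zero] using this
    refine (CStarRing.star_mul_self_eq_zero_iff _).1 ?_
    nth_rw 1 [hK]
    rw [star_sub, star_mul, star_mul, sR, sub_mul, mul_assoc, mul_assoc, e1, e2]
    simp
  have hc : ∀ j, Commute (T j) R := fun j => (sub_eq_zero.1 (hK j)).symm
  have e1 : R * (R - Θ 1) = 0 := by
    refine ker_pow sR n ?_
    have e := congrArg star (hΘR (n + 1) le_rfl)
    rw [mul_sub, ← pow_succ, hP, Finset.mul_sum, ← hΘR _ le_rfl, sub_eq_zero]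
    refine Finset.sum_congr rfl fun j _ => ?_
    have := ((hc j).pow_right (n + 1)).star_star
    rw [star_pow, sR] at this
    rw [this.eq, mul_assoc]
  have e2 : R - Θ 1 = 0 := by
    refine (CStarRing.star_mul_self_eq_zero_iff _).1 ?_
    rw [star_sub, sR, show star (Θ 1) = Θ 1 from hs 1, sub_mul, e1]
    nth_rw 1 [hP]
    simp [Finset.sum_mul, mul_assoc, hker _ e1]
  exact sub_eq_zero.1 e2 ▸ hc i

end alg

theorem result {H : Type*} [NormedAddCommGroup H] [InnerProductSpace ℂ H] [CompleteSpace H]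
    {d : ℕ} (T : Fin d → H →L[ℂ] H) (hc : ∀ i j, Commute (T i) (T j))
    (hh : JointlyHyponormal T) (n : ℕ) (hn : 1 ≤ n)
    (hq : SphericallyQuasinormal (tuplePow T n)) : SphericallyQuasinormal T := by
  let Θ : (H →L[ℂ] H) → H →L[ℂ] H := fun X => ∑ i, star (T i) * X * T i
  have hw : ∀ m X, Θ^[m] X = ∑ w, star (tuplePow T m w) * X * tuplePow T m w := by
    intro m
    induction m with
    | zero => simp [tuplePow]
    | succ m ih =>
      intro X
      rw [Function.iterate_succ_apply, ih, ← (Fin.consEquiv fun _ => Fin d).sum_comp,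
        Fintype.sum_prod_type, Finset.sum_comm]
      simp [Θ, tuplePow, List.ofFn_succ, Finset.mul_sum, Finset.sum_mul, mul_assoc,
        Fin.consEquiv]
  have hpos : ∀ B : H →L[ℂ] H, IsSelfAdjoint B → (∀ x, 0 ≤ (⟪x, B x⟫_ℂ).re) → 0 ≤ B :=
    fun B h1 h2 => (ContinuousLinearMap.nonneg_iff_isPositive B).2
      (ContinuousLinearMap.isPositive_def'.2 ⟨h1, fun x => by
        simpa [ContinuousLinearMap.reApplyInnerSelf, inner_re_symm] using h2 x⟩)
  have hP : Θ 1 = ∑ i, star (T i) * T i := by simp [Θ]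
  intro i
  rw [← hP]
  refine core T Θ (fun _ => rfl) (sub_nonneg.1 (hpos _ ?_ fun x => ?_))
    (fun j => sub_nonneg.1 (hpos _ ?_ fun x => ?_)) hn
    (Q := ∑ w, star (tuplePow T n w) * tuplePow T n w)
    (Finset.sum_nonneg fun w _ => star_mul_self_nonneg _) (fun k => ?_) i
  · simp [IsSelfAdjoint, Θ, star_sum, mul_assoc]
  · have e : Θ (Θ 1) - Θ 1 * Θ 1 =
        ∑ i, ∑ j, star (T i) * (star (T j) * T i - T i * star (T j)) * T j := by
      rw [hP]
      simp only [Θ, Finset.mul_sum, Finset.sum_mul, mul_sub, sub_mul, Finset.sum_sub_distrib,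
        mul_assoc]
      congr 1
      · exact Finset.sum_congr rfl fun i _ => Finset.sum_congr rfl fun j _ => by rw [(hc i j).eq]
      · exact Finset.sum_comm
    convert hh fun j => T j x using 2
    simp only [e, sum_apply, inner_sum, mul_apply_eq_comp,
      ContinuousLinearMap.star_eq_adjoint, ContinuousLinearMap.adjoint_inner_right]
  · simp [IsSelfAdjoint]
  · convert hh (Pi.single j x) using 2
    rw [Finset.sum_eq_single j (fun b _ hb => by simp [hb]) (by simp),
      Finset.sum_eq_single j (fun b _ hb => by simp [hb]) (by simp)]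
    simp
  · induction k with
    | zero => simp
    | succ k ih =>
      rw [mul_add, mul_one, add_comm, Function.iterate_add_apply, ih, hw, pow_succ',
        Finset.sum_mul]
      exact Finset.sum_congr rfl fun w _ => by
        rw [mul_assoc, ← ((hq w).pow_right k).eq, mul_assoc]

end Pool.Agent.Results.MP_20dafb_an.Root
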